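import Pool.Agent.W172.WL.Stm

set_option autoImplicit false

/-!
# Project WL, part PART (helper648)
-/

open Set
open Pool.Agent.W172.WL

namespace Pool.Agent.W648.WL

theorem lam_nonneg (x : ℝ) : 0 ≤ Lam x := le_max_left _ _

theorem lam_le (x : ℝ) : Lam x ≤ 1 / 2 := by
  unfold Lam
  apply max_le (by norm_num)
  rcases le_total x (1/2) with h | h
  · exact (min_le_left _ _).trans h
  · exact (min_le_right _ _).trans (by linarith)

theorem lam_zero {x : ℝ} {i : ℕ} (hx : 0 ≤ x) (h : ⌊x⌋₊ ≠ i) : Lam (x - i) = 0 := by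
  unfold Lam
  apply max_eq_left
  rcases lt_or_gt_of_ne h with h | h
  · have h1 : x < i := (Nat.floor_lt hx).mp h
    exact (min_le_left _ _).trans (by linarith)
  · have h1 : i + 1 ≤ ⌊x⌋₊ := h
    have h2 := (Nat.le_floor_iff hx).mp h1
    push_cast at h2
    exact (min_le_right _ _).trans (by linarith)

theorem w_eq {b : ℕ} (hb : 2 ≤ b) (α : ℝ) (n : ℕ) (k : ℕ) :
    (b : ℝ) ^ (α * ((n : ℝ) - k)) = (b : ℝ) ^ (α * n) * ((b : ℝ) ^ (-α)) ^ k := by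
  have hb0 : (0:ℝ) < b := by positivity
  rw [← Real.rpow_natCast, ← Real.rpow_mul hb0.le, ← Real.rpow_add hb0]
  congr 1
  ring

theorem rho_lt {b : ℕ} (hb : 2 ≤ b) {α : ℝ} (h0 : 0 < α) : (b : ℝ) ^ (-α) < 1 := by
  have hb1 : (1:ℝ) < b := by exact_mod_cast hb
  exact Real.rpow_lt_one_of_one_lt_of_neg hb1 (by linarith)

theorem sumw {b : ℕ} (hb : 2 ≤ b) {α : ℝ} (h0 : 0 < α) (n : ℕ) :
    Summable (fun k : ℕ => (b : ℝ) ^ (α * ((n : ℝ) - k))) := by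
  have hb0 : (0:ℝ) < b := by positivity
  have h1 : (fun k : ℕ => (b : ℝ) ^ (α * ((n : ℝ) - k))) =
      fun k : ℕ => (b : ℝ) ^ (α * n) * ((b : ℝ) ^ (-α)) ^ k := by
    funext k; exact w_eq hb α n k
  rw [h1]
  exact (summable_geometric_of_lt_one (Real.rpow_nonneg hb0.le _) (rho_lt hb h0)).mul_left _

theorem tail {b : ℕ} (hb : 2 ≤ b) {α : ℝ} (h0 : 0 < α) (n m : ℕ) (T : ℕ → ℝ)
    (hT0 : ∀ j, 0 ≤ T j) (hT1 : ∀ j, T j ≤ 1 / 2 * (b : ℝ) ^ (α * ((n : ℝ) - j)))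
    (hTz : ∀ j, j < m → T j = 0) :
    ∑' j, T j ≤ 1 / 2 * (b : ℝ) ^ (α * ((n : ℝ) - m)) / (1 - (b : ℝ) ^ (-α)) := by
  have hb0 : (0:ℝ) < b := by positivity
  have hr0 : 0 ≤ (b : ℝ) ^ (-α) := Real.rpow_nonneg hb0.le _
  have hr1 := rho_lt hb h0
  have hs : Summable T :=
    Summable.of_nonneg_of_le hT0 hT1 ((sumw hb h0 n).mul_left _)
  rw [← hs.sum_add_tsum_nat_add m]
  have h1 : ∑ i ∈ Finset.range m, T i = 0 :=
    Finset.sum_eq_zero fun i hi => hTz i (Finset.mem_range.mp hi)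
  rw [h1, zero_add]
  have h2 : ∀ j, T (j + m) ≤ 1 / 2 * (b : ℝ) ^ (α * ((n : ℝ) - m)) * ((b : ℝ) ^ (-α)) ^ j := by
    intro j
    refine (hT1 (j + m)).trans (le_of_eq ?_)
    rw [w_eq hb, w_eq hb, pow_add]
    ring
  have h3 : Summable (fun j : ℕ => 1 / 2 * (b : ℝ) ^ (α * ((n : ℝ) - m)) * ((b : ℝ) ^ (-α)) ^ j) :=
    (summable_geometric_of_lt_one hr0 hr1).mul_left _
  calc ∑' j, T (j + m) ≤ ∑' j : ℕ, 1 / 2 * (b : ℝ) ^ (α * ((n : ℝ) - m)) * ((b : ℝ) ^ (-α)) ^ j :=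
        Summable.tsum_le_tsum h2 ((summable_nat_add_iff m).mpr hs) h3
    _ = 1 / 2 * (b : ℝ) ^ (α * ((n : ℝ) - m)) / (1 - (b : ℝ) ^ (-α)) := by
        rw [tsum_mul_left, tsum_geometric_of_lt_one hr0 hr1]
        ring

theorem core (hDL : S_DIGLAM) (b p c : ℕ) (α : ℝ) (hb : 2 ≤ b) (hα0 : 0 < α)
    (hc : (p : ℝ) * (b : ℝ) ^ (-(α * ((c : ℝ) + 1))) / (1 - (b : ℝ) ^ (-α)) ≤ 1 / (b : ℝ) ^ 2 / 2)
    (L n z : ℕ) (ξ : ℝ) (hξ : (b : ℝ) ^ (th α * L) ≤ |ξ|)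
    (u : Fin (2 * p) → ℝ) (hu : ∀ a, u a ∈ Ico (0:ℝ) 1)
    (k q : ℕ) (a : Fin (2 * p))
    (H : |ξ| * (wt b α q * |∑ a', sg p a' * Bc b α n z q
      ⌊(b : ℝ) ^ q * Int.fract ((b : ℝ) ^ k * ((z + u a) / (b : ℝ) ^ n))⌋₊ (u a')|) <
        (b : ℝ) ^ (et α * L - 2) / 2)
    (hnum : et α * L ≤ th α * L - (1 + et α) * q + α * ((n : ℝ) - k))
    (hg0 : ¬ (Ez b n z (u a) (k + q + 1) = 0 ∧ Ez b n z (u a) (k + q + 2) = 0))
    (hg1 : ¬ (Ez b n z (u a) (k + q + 1) = b - 1 ∧ Ez b n z (u a) (k + q + 2) = b - 1)) :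
    ∃ (a' : Fin (2 * p)) (k' : ℕ), (a', k') ≠ (a, k) ∧ k' ≤ k + c ∧
      ⌊(b : ℝ) ^ q * Int.fract ((b : ℝ) ^ k' * ((z + u a') / (b : ℝ) ^ n))⌋₊ =
        ⌊(b : ℝ) ^ q * Int.fract ((b : ℝ) ^ k * ((z + u a) / (b : ℝ) ^ n))⌋₊ := by
  by_contra hcon
  push Not at hcon
  set i : ℕ := ⌊(b : ℝ) ^ q * Int.fract ((b : ℝ) ^ k * ((z + u a) / (b : ℝ) ^ n))⌋₊ with hi
  have hb0 : (0:ℝ) < b := by positivity
  have hr1 := rho_lt hb hα0
  have hY : ∀ a', 0 ≤ (z + u a') / (b : ℝ) ^ n := fun a' => by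
    have := (hu a').1
    positivity
  -- the terms
  set T : Fin (2 * p) → ℕ → ℝ := fun a' k' => (b : ℝ) ^ (α * ((n : ℝ) - k')) *
    Lam ((b : ℝ) ^ q * Int.fract ((b : ℝ) ^ k' * ((z + u a') / (b : ℝ) ^ n)) - i) with hTdef
  have hT0 : ∀ a' k', 0 ≤ T a' k' := fun a' k' =>
    mul_nonneg (Real.rpow_nonneg hb0.le _) (lam_nonneg _)
  have hT1 : ∀ a' k', T a' k' ≤ 1 / 2 * (b : ℝ) ^ (α * ((n : ℝ) - k')) := fun a' k' => by
    have h1 := lam_le ((b : ℝ) ^ q * Int.fract ((b : ℝ) ^ k' * ((z + u a') / (b : ℝ) ^ n)) - i)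
    have h2 : 0 ≤ (b : ℝ) ^ (α * ((n : ℝ) - k')) := Real.rpow_nonneg hb0.le _
    have h3 := mul_le_mul_of_nonneg_left h1 h2
    show (b : ℝ) ^ (α * ((n : ℝ) - k')) * Lam _ ≤ _
    linarith
  have hTz : ∀ a' k', (a', k') ≠ (a, k) → k' < k + c + 1 → T a' k' = 0 := by
    intro a' k' h1 h2
    have h3 := hcon a' k' h1 (by omega)
    show (b : ℝ) ^ (α * ((n : ℝ) - k')) * Lam _ = 0
    rw [lam_zero (mul_nonneg (by positivity) (Int.fract_nonneg _)) h3, mul_zero]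
  have hTs : ∀ a', Summable (T a') := fun a' =>
    Summable.of_nonneg_of_le (hT0 a') (hT1 a') ((sumw hb hα0 n).mul_left _)
  -- remove the main term
  set T' : Fin (2 * p) → ℕ → ℝ := fun a' k' => if (a', k') = (a, k) then 0 else T a' k' with hT'def
  set R : ℝ := 1 / 2 * (b : ℝ) ^ (α * ((n : ℝ) - ((k + c + 1 : ℕ) : ℝ))) / (1 - (b : ℝ) ^ (-α)) with hR
  have hT'0 : ∀ a' k', 0 ≤ T' a' k' := fun a' k' => by
    simp only [hT'def]; split_ifs
    · exact le_rfl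
    · exact hT0 _ _
  have hT'1 : ∀ a' k', T' a' k' ≤ 1 / 2 * (b : ℝ) ^ (α * ((n : ℝ) - k')) := fun a' k' => by
    simp only [hT'def]; split_ifs
    · have := Real.rpow_nonneg hb0.le (α * ((n : ℝ) - k'))
      positivity
    · exact hT1 _ _
  have hT'R : ∀ a', ∑' k', T' a' k' ≤ R := fun a' => by
    refine tail hb hα0 n (k + c + 1) (T' a') (hT'0 a') (hT'1 a') ?_
    intro j hj
    simp only [hT'def]
    split_ifs with h
    · rfl
    · exact hTz _ _ h hj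
  have hT's : ∀ a', 0 ≤ ∑' k', T' a' k' := fun a' => tsum_nonneg (hT'0 a')
  have hBc : ∀ a', Bc b α n z q i (u a') = (if a' = a then T a k else 0) + ∑' k', T' a' k' := by
    intro a'
    have e : Bc b α n z q i (u a') = ∑' k', T a' k' := rfl
    rw [e]
    by_cases h : a' = a
    · subst h
      rw [if_pos rfl, (hTs a').tsum_eq_add_tsum_ite k]
      congr 1
      apply tsum_congr
      intro j
      simp only [hT'def, Prod.mk.injEq, true_and]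
    · rw [if_neg h, zero_add]
      apply tsum_congr
      intro j
      simp only [hT'def, Prod.mk.injEq, h, false_and, if_false]
  have hsg : ∀ a' : Fin (2 * p), |sg p a'| = 1 := by
    intro a'; unfold sg; split_ifs <;> simp
  have hsum : ∑ a', sg p a' * Bc b α n z q i (u a') =
      sg p a * T a k + ∑ a', sg p a' * ∑' k', T' a' k' := by
    simp_rw [hBc, mul_add, Finset.sum_add_distrib]
    congr 1
    simp
  have hmain : (b : ℝ) ^ (α * ((n : ℝ) - k)) * (1 / (b : ℝ) ^ 2) ≤ T a k := by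
    have h1 := hDL b hb ((b : ℝ) ^ k * ((z + u a) / (b : ℝ) ^ n)) (by have := hY a; positivity) q
      (by
        intro h
        apply hg0
        unfold Ez
        rw [show (b : ℝ) ^ (k + q + 1) * ((z + u a) / (b : ℝ) ^ n) =
          (b : ℝ) ^ (q + 1) * ((b : ℝ) ^ k * ((z + u a) / (b : ℝ) ^ n)) by ring,
          show (b : ℝ) ^ (k + q + 2) * ((z + u a) / (b : ℝ) ^ n) =
          (b : ℝ) ^ (q + 2) * ((b : ℝ) ^ k * ((z + u a) / (b : ℝ) ^ n)) by ring]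
        exact h)
      (by
        intro h
        apply hg1
        unfold Ez
        rw [show (b : ℝ) ^ (k + q + 1) * ((z + u a) / (b : ℝ) ^ n) =
          (b : ℝ) ^ (q + 1) * ((b : ℝ) ^ k * ((z + u a) / (b : ℝ) ^ n)) by ring,
          show (b : ℝ) ^ (k + q + 2) * ((z + u a) / (b : ℝ) ^ n) =
          (b : ℝ) ^ (q + 2) * ((b : ℝ) ^ k * ((z + u a) / (b : ℝ) ^ n)) by ring]
        exact h)
    exact mul_le_mul_of_nonneg_left h1 (Real.rpow_nonneg hb0.le _)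
  have hrest : |∑ a', sg p a' * ∑' k', T' a' k'| ≤ (2 * p : ℝ) * R := by
    calc |∑ a', sg p a' * ∑' k', T' a' k'| ≤ ∑ a' : Fin (2 * p), |sg p a' * ∑' k', T' a' k'| :=
          Finset.abs_sum_le_sum_abs _ _
      _ ≤ ∑ _a' : Fin (2 * p), R := by
          apply Finset.sum_le_sum
          intro a' _
          rw [abs_mul, hsg, one_mul, abs_of_nonneg (hT's a')]
          exact hT'R a'
      _ = (2 * p : ℝ) * R := by simp
  have hRle : (2 * p : ℝ) * R ≤ (b : ℝ) ^ (α * ((n : ℝ) - k)) * (1 / (b : ℝ) ^ 2 / 2) := by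
    have e1 : (b : ℝ) ^ (α * ((n : ℝ) - ((k + c + 1 : ℕ) : ℝ))) =
        (b : ℝ) ^ (α * ((n : ℝ) - k)) * (b : ℝ) ^ (-(α * ((c : ℝ) + 1))) := by
      rw [← Real.rpow_add hb0]
      congr 1
      push_cast
      ring
    have e2 : (2 * p : ℝ) * R = (b : ℝ) ^ (α * ((n : ℝ) - k)) *
        ((p : ℝ) * (b : ℝ) ^ (-(α * ((c : ℝ) + 1))) / (1 - (b : ℝ) ^ (-α))) := by
      rw [hR, e1]; ring
    rw [e2]
    exact mul_le_mul_of_nonneg_left hc (Real.rpow_nonneg hb0.le _)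
  have hlow : (b : ℝ) ^ (α * ((n : ℝ) - k)) * (1 / (b : ℝ) ^ 2 / 2) ≤
      |∑ a', sg p a' * Bc b α n z q i (u a')| := by
    rw [hsum]
    have h1 : |sg p a * T a k| = T a k := by
      rw [abs_mul, hsg, one_mul, abs_of_nonneg (hT0 a k)]
    have h2 := abs_sub_abs_le_abs_sub (sg p a * T a k) (-∑ a', sg p a' * ∑' k', T' a' k')
    rw [abs_neg, sub_neg_eq_add, h1] at h2
    have h3 : (b : ℝ) ^ (α * ((n : ℝ) - k)) * (1 / (b : ℝ) ^ 2 / 2) +
        (b : ℝ) ^ (α * ((n : ℝ) - k)) * (1 / (b : ℝ) ^ 2 / 2) =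
        (b : ℝ) ^ (α * ((n : ℝ) - k)) * (1 / (b : ℝ) ^ 2) := by ring
    linarith
  -- final numeric contradiction
  have hwt : 0 ≤ wt b α q := Real.rpow_nonneg hb0.le _
  have h1 : (b : ℝ) ^ (th α * L) * ((b : ℝ) ^ (-((1 + et α) * q)) *
      ((b : ℝ) ^ (α * ((n : ℝ) - k)) * (1 / (b : ℝ) ^ 2 / 2))) ≤
      |ξ| * (wt b α q * |∑ a', sg p a' * Bc b α n z q i (u a')|) := by
    apply mul_le_mul hξ _ _ (abs_nonneg _)
    · exact mul_le_mul_of_nonneg_left hlow hwt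
    · positivity
  have h2 : (b : ℝ) ^ (th α * L) * ((b : ℝ) ^ (-((1 + et α) * q)) *
      ((b : ℝ) ^ (α * ((n : ℝ) - k)) * (1 / (b : ℝ) ^ 2 / 2))) =
      (b : ℝ) ^ (th α * L - (1 + et α) * q + α * ((n : ℝ) - k) - 2) / 2 := by
    rw [show th α * L - (1 + et α) * q + α * ((n : ℝ) - k) - 2 =
      th α * L + (-((1 + et α) * q) + (α * ((n : ℝ) - k) + (-2))) by ring,
      Real.rpow_add hb0, Real.rpow_add hb0, Real.rpow_add hb0, Real.rpow_neg hb0.le 2]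
    norm_num
    ring
  have h3 : (b : ℝ) ^ (et α * L - 2) ≤
      (b : ℝ) ^ (th α * L - (1 + et α) * q + α * ((n : ℝ) - k) - 2) := by
    apply Real.rpow_le_rpow_of_exponent_le
    · exact_mod_cast (by omega : 1 ≤ b)
    · linarith
  rw [h2] at h1
  linarith

theorem window (hDE : S_DIGEQ) (hDL : S_DIGLAM) (b p c : ℕ) (α : ℝ) (hb : 2 ≤ b) (hα0 : 0 < α)
    (hα1 : α < 1) (hc1 : 1 ≤ c)
    (hc : (p : ℝ) * (b : ℝ) ^ (-(α * ((c : ℝ) + 1))) / (1 - (b : ℝ) ^ (-α)) ≤ 1 / (b : ℝ) ^ 2 / 2)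
    (L n z : ℕ) (ξ : ℝ) (hξ : (b : ℝ) ^ (th α * L) ≤ |ξ|)
    (u : Fin (2 * p) → ℝ) (hu : ∀ a, u a ∈ Ico (0:ℝ) 1)
    (H : ∀ l i : ℕ, l ≤ L → i < b ^ l →
      |ξ| * (wt b α l * |∑ a, sg p a * Bc b α n z l i (u a)|) < (b : ℝ) ^ (et α * L - 2) / 2)
    (k l : ℕ) (hl : l ≤ L)
    (hnum : et α * L ≤ th α * L - (1 + et α) * l + α * ((n : ℝ) - k)) (a : Fin (2 * p)) :
    StrAt b n z c k l u a := by
  classical
  have hEb : ∀ j, Ez b n z (u a) j < b := fun j => Nat.mod_lt _ (by omega)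
  have hY : ∀ a', 0 ≤ (z + u a') / (b : ℝ) ^ n := fun a' => by
    have := (hu a').1
    positivity
  -- propagation of constancy
  have hconst : ∀ q : ℕ, (∀ j, q < j → j ≤ l → Ez b n z (u a) (k + j + 1) = Ez b n z (u a) (k + j + 2)) →
      ∀ t, q + 2 ≤ t → t ≤ l + 2 → Ez b n z (u a) (k + t) = Ez b n z (u a) (k + q + 2) := by
    intro q hq t ht
    induction t, ht using Nat.le_induction with
    | base => intro _; rfl
    | succ t ht ih =>
      intro h2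
      have h3 := hq (t - 1) (by omega) (by omega)
      rw [show k + (t - 1) + 1 = k + t by omega, show k + (t - 1) + 2 = k + (t + 1) by omega] at h3
      rw [← h3]
      exact ih (by omega)
  set good : ℕ → Prop := fun j =>
    ¬ (Ez b n z (u a) (k + j + 1) = 0 ∧ Ez b n z (u a) (k + j + 2) = 0) ∧
    ¬ (Ez b n z (u a) (k + j + 1) = b - 1 ∧ Ez b n z (u a) (k + j + 2) = b - 1) with hgood
  have hng : ∀ j, ¬ good j → Ez b n z (u a) (k + j + 1) = Ez b n z (u a) (k + j + 2) := by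
    intro j hj
    by_contra hne
    exact hj ⟨fun h => hne (by rw [h.1, h.2]), fun h => hne (by rw [h.1, h.2])⟩
  have hpart : (a, k + 1) ≠ (a, k) := by
    intro h
    have := congrArg Prod.snd h
    simp at this
  by_cases hex : ∃ j, j ≤ l ∧ good j
  · -- largest good index
    obtain ⟨q, hq, hgq, hmax⟩ : ∃ q, q ≤ l ∧ good q ∧ ∀ j, q < j → j ≤ l → ¬ good j := by
      obtain ⟨j, hj, hgj⟩ := hex
      refine ⟨Nat.findGreatest good l, Nat.findGreatest_le l, Nat.findGreatest_spec hj hgj, ?_⟩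
      intro i hi1 hi2
      exact Nat.findGreatest_is_greatest hi1 hi2
    have hcq := hconst q (fun j h1 h2 => hng j (hmax j h1 h2))
    have hnumq : et α * L ≤ th α * L - (1 + et α) * q + α * ((n : ℝ) - k) := by
      have h1 : (q : ℝ) ≤ l := by exact_mod_cast hq
      have h2 : 0 ≤ 1 + et α := by unfold et; linarith
      have h3 := mul_le_mul_of_nonneg_left h1 h2
      linarith
    have hib : ⌊(b : ℝ) ^ q * Int.fract ((b : ℝ) ^ k * ((z + u a) / (b : ℝ) ^ n))⌋₊ < b ^ q := by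
      have hb0 : (0:ℝ) < b := by positivity
      rw [Nat.floor_lt (mul_nonneg (by positivity) (Int.fract_nonneg _))]
      have h1 := Int.fract_lt_one ((b : ℝ) ^ k * ((z + u a) / (b : ℝ) ^ n))
      have h2 : (0:ℝ) < (b : ℝ) ^ q := by positivity
      push_cast
      calc (b : ℝ) ^ q * Int.fract ((b : ℝ) ^ k * ((z + u a) / (b : ℝ) ^ n)) < (b : ℝ) ^ q * 1 :=
            mul_lt_mul_of_pos_left h1 h2
        _ = (b : ℝ) ^ q := mul_one _
    obtain ⟨a', k', hne, hk', hfl⟩ := core hDL b p c α hb hα0 hc L n z ξ hξ u hu k q a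
      (H q _ (hq.trans hl) hib) hnumq hgq.1 hgq.2
    refine ⟨q, hq, Ez b n z (u a) (k + q + 2), hEb _, a', k', hne, hk', ?_, hcq⟩
    intro t ht1 ht2
    have h1 := hDE b hb ((b : ℝ) ^ k' * ((z + u a') / (b : ℝ) ^ n))
      ((b : ℝ) ^ k * ((z + u a) / (b : ℝ) ^ n))
      (by have := hY a'; positivity) (by have := hY a; positivity) q hfl t ht1 ht2
    unfold Ez
    rw [show (b : ℝ) ^ (k' + t) * ((z + u a') / (b : ℝ) ^ n) =
        (b : ℝ) ^ t * ((b : ℝ) ^ k' * ((z + u a') / (b : ℝ) ^ n)) by ring,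
      show (b : ℝ) ^ (k + t) * ((z + u a) / (b : ℝ) ^ n) =
        (b : ℝ) ^ t * ((b : ℝ) ^ k * ((z + u a) / (b : ℝ) ^ n)) by ring]
    exact h1
  · push Not at hex
    have hc0 := hconst 0 (fun j _ h2 => hng j (hex j h2))
    exact ⟨0, Nat.zero_le _, Ez b n z (u a) (k + 0 + 2), hEb _, a, k + 1, hpart, by omega,
      fun t h1 h2 => by omega, hc0⟩

/-- PART -/
theorem part : S_DIGEQ → S_DIGLAM → S_PART := by
  intro hDE hDL b p c α hb hα0 hα1 _ hc1 hc L n z _ ξ hξ u hu H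
  have hL0 : (0:ℝ) ≤ L := Nat.cast_nonneg L
  refine ⟨fun a => ?_, fun a => ?_⟩
  · refine window hDE hDL b p c α hb hα0 hα1 hc1 hc L n z ξ hξ u hu H n L le_rfl ?_ a
    apply le_of_eq
    unfold th et
    ring
  · have h1 : (l1 α L : ℝ) ≤ (1 - α) * L := Nat.floor_le (mul_nonneg (by linarith) hL0)
    have h2 : l1 α L ≤ L := by
      have h3 : (l1 α L : ℝ) ≤ L := by nlinarith
      exact_mod_cast h3
    refine window hDE hDL b p c α hb hα0 hα1 hc1 hc L n z ξ hξ u hu H (n + L) (l1 α L) h2 ?_ a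
    have h4 : 0 ≤ 1 + et α := by unfold et; linarith
    have h5 := mul_le_mul_of_nonneg_left h1 h4
    push_cast
    have h6 : 0 ≤ α * (1 - α) * L := mul_nonneg (mul_nonneg hα0.le (by linarith)) hL0
    unfold th et at *
    nlinarith

end Pool.Agent.W648.WL
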